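import Pool.Agent.H50.FW.Last3

/-!
# Furtwängler's theorems over number fields

Let `K` be a number field of degree `m`, let `p > m` be an odd prime and let `x 0, x 1, x 2` be
nonzero elements of `K` with `x 0 ^ p + x 1 ^ p + x 2 ^ p = 0` which have the same valuation at
each prime above `p` (the first case of Fermat's Last Theorem over `K`).

Furtwängler proved for `K = ℚ` that `q ^ (p - 1)` is congruent to `1` modulo `p ^ 2` for all prime
numbers `q` which divide one of the coordinates, or the difference of two coordinates if this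
difference is prime to `p`. This contains the criteria of Wieferich (`q = 2`) and Mirimanoff
(`q = 3`). Let now `q ≠ p` be a prime number for which `q ^ (p - 1)` is not congruent to `1`
modulo `p ^ 2`. We prove the following.

(A) No coordinate is divisible by all primes above `q`. This holds without a condition on `p` if
`m ≤ 2`, more generally if there are at most `p ^ 2` residue classes modulo the product of the
primes above `p`, and for all `m` if `p` has few irregular indices.

(B) For all `K` the trace of `x j / x k` modulo `p` is determined by the degrees of the sets of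
primes above `q` which divide the coordinates, if the residue of `x i / x j` at each prime above `q`
is zero, infinite, or a conjugate of its inverse. If `p` has few irregular indices then these
degrees are equal. In a quadratic field these degrees determine the minimal polynomial of
`x i / x j` modulo `p`, and so whether `p` splits in `K`.

(C) If `p` is totally ramified in `K` and `p > 4 m ^ 2` the condition in (B) cannot hold for all pairs.

(D) For `q = 2` this gives a criterion of Wieferich's type without a condition on Bernoulli numbers: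
there is no solution if `2` is totally ramified in `K` and `m ≤ 2`, and in a quadratic field `K` in
which `2` is inert (or splits) there is no solution if the Legendre symbols of `-3` (or `-15`) and of the
discriminant of `K` modulo `p` are different.

Proof. The polynomial `f (T) = N (x i + T x j)` at a `p`-th root of unity `ζ` generates the `p`-th
power of an ideal, up to a rational number (starting files). By Stickelberger's theorem for the
Jacobi sums `J (χ, χ ^ a)` the product of the conjugates of `f (ζ)` which belongs to `a` is a root of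
unity times a `p`-th power. Modulo `p` this gives the exponent of the root of unity in terms of
the logarithmic derivative of `f` at `T = 1` and the sum of the inverses of the elements of
`{t | p < t + a t}`; for some `a` this sum is not zero. Modulo a prime `Q` above `q` the polynomial
`f` is equal to its reciprocal up to the sign and a power of `T`, since the set of residues is stable
under the Frobenius map and under inversion. The relation for `ζ` and for `1 / ζ` gives the same
exponent in terms of the degrees, if `q ^ (p - 1)` is not congruent to `1` modulo `p ^ 2`.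
-/

set_option autoImplicit false

namespace Pool.Agent.Results.MP_ef6a16_nt.Furtwaengler

open NumberField IsDedekindDomain

/-- The even numbers `k` with `2 ≤ k ≤ p - 3` for which `p` divides the numerator of the Bernoulli
number with index `k`. Their number is the index of irregularity of `p`. -/
def Irregular (p : ℕ) : Finset ℕ :=
  (Finset.range p).filter fun k => Even k ∧ 2 ≤ k ∧ k + 3 ≤ p ∧ (p : ℤ) ∣ (bernoulli k).num

/-- `p` has few irregular indices: `p ≥ 2 m + 3` and `p` does not divide the Bernoulli numbers with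
the indices `p - 3, p - 5, ..., p - 2 m + 1`, or `m (i + 1) (i + 2) + 3 ≤ p` for the index of
irregularity `i`. -/
def FewIrregular (p m : ℕ) : Prop :=
  (2 * m + 3 ≤ p ∧ ∀ k ∈ Irregular p, k + 2 * m < p) ∨
    m * (((Irregular p).card + 1) * ((Irregular p).card + 2)) + 3 ≤ p

section

variable {K : Type} [Field K] [NumberField K]

/-- The primes of `K` above the number `q`. -/
def Above (q : ℕ) (K : Type) [Field K] [NumberField K] : Set (HeightOneSpectrum (𝓞 K)) :=
  {v | ((q : ℕ) : 𝓞 K) ∈ v.asIdeal}

/-- The degree of a set of primes: the sum of the local degrees (ramification index times residue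
degree) of its elements. -/
noncomputable def degree (A : Set (HeightOneSpectrum (𝓞 K))) : ℕ :=
  ∑ᶠ v ∈ A, v.asIdeal.ramificationIdx ℤ * v.asIdeal.inertiaDeg ℤ

/-- `v` divides `x i`: the valuation of `x i` at `v` is larger than that of another coordinate. So
`v` divides `x i` if the coordinates are scaled to be integral at `v` and not all divisible. -/
def Divides (x : Fin 3 → K) (i : Fin 3) (v : HeightOneSpectrum (𝓞 K)) : Prop :=
  ∃ l, v.valuation K (x i) < v.valuation K (x l)

/-- The degree of the set of primes above `q` which divide `x i`. -/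
noncomputable def deg (q : ℕ) (x : Fin 3 → K) (i : Fin 3) : ℕ :=
  degree {v | v ∈ Above q K ∧ Divides x i v}

/-- The condition on `q` for the pair `x i, x j` (and the third coordinate `x k`): at each prime
`v` above `q` the residue of `x i / x j` is zero, infinite or `-1`, or `v` divides `x k` and `p` does
not divide `N v - 1`, or `v` does not divide `x k` and the residue of `x i / x j` is a conjugate of its
inverse over the field with `q` elements. -/
def Good (p q : ℕ) (x : Fin 3 → K) (i j k : Fin 3) : Prop :=
  ∀ v ∈ Above q K, Divides x i v ∨ Divides x j v ∨ v.valuation K (x i / x j + 1) < 1 ∨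
    (Divides x k v ∧ ¬ p ∣ Nat.card (𝓞 K ⧸ v.asIdeal) - 1) ∨
    (¬ Divides x k v ∧ ∃ s : ℕ, v.valuation K ((x i / x j) ^ (q ^ s + 1) - 1) < 1)

/-- A solution of the Fermat equation in the first case. -/
structure FirstCase (p : ℕ) (x : Fin 3 → K) : Prop where
  ne_zero : ∀ i, x i ≠ 0
  sum_eq : x 0 ^ p + x 1 ^ p + x 2 ^ p = 0
  val_eq : ∀ v ∈ Above p K, ∀ i j, v.valuation K (x i) = v.valuation K (x j)

end

/-- There are two primes above `q`. -/
def Split (q : ℕ) (K : Type) [Field K] [NumberField K] : Prop :=
  ∃ v ∈ Above q K, ∃ w ∈ Above q K, v ≠ w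

/-- There is one prime above `q`, and its norm is `q ^ 2`. -/
def Inert (q : ℕ) (K : Type) [Field K] [NumberField K] : Prop :=
  (∀ v ∈ Above q K, ∀ w ∈ Above q K, v = w) ∧
    ∀ v ∈ Above q K, Nat.card (𝓞 K ⧸ v.asIdeal) = q ^ 2

/-- There is one prime above `q`, and its norm is `q`. -/
def TotallyRamified (q : ℕ) (K : Type) [Field K] [NumberField K] : Prop :=
  (∀ v ∈ Above q K, ∀ w ∈ Above q K, v = w) ∧
    ∀ v ∈ Above q K, Nat.card (𝓞 K ⧸ v.asIdeal) = q

/-- `p` splits in the quadratic field `K` if `d` is a square modulo `p`, and is inert otherwise. -/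
def Decides (d : ℤ) (p : ℕ) (K : Type) [Field K] [NumberField K] : Prop :=
  (IsSquare (d : ZMod p) → Split p K) ∧ (¬ IsSquare (d : ZMod p) → Inert p K)

theorem decides_of {p : ℕ} (hp : p.Prime) {K : Type} [Field K] [NumberField K]
    (hm : Module.finrank ℚ K = 2) {d : ℤ} (h1 : IsSquare (d : ZMod p) → Split p K)
    (h2 : ¬ IsSquare (d : ZMod p) → ∀ v ∈ Above p K, Nat.card (𝓞 K ⧸ v.asIdeal) ≠ p) :
    Decides d p K := by
  refine ⟨h1, fun h => ⟨fun v hv w hw => ?_, fun v hv => ?_⟩⟩
  · by_contra hne
    exact h2 h v hv (H50.FW.card_of_split hp hm (P := v.asIdeal) (P' := w.asIdeal)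
      ⟨v.isPrime, hv⟩ ⟨w.isPrime, hw⟩ fun h3 => hne (HeightOneSpectrum.ext h3)).2
  · exact (H50.FW.card_quad hp hm v hv).resolve_left (h2 h v hv)

theorem result (K : Type) [Field K] [NumberField K] (m : ℕ) (hK : Module.finrank ℚ K = m)
    (p : ℕ) (hp : p.Prime) (hp2 : p ≠ 2) (hm : m < p) (x : Fin 3 → K) (hx : FirstCase p x)
    (q : ℕ) (hq : q.Prime) (hqp : q ≠ p) (hW : ¬ p ^ 2 ∣ q ^ (p - 1) - 1) :
    -- (A) no coordinate is divisible by all primes above `q`
    ((m ≤ 2 ∨ Nat.card (𝓞 K ⧸ (Ideal.span {((p : ℕ) : 𝓞 K)}).radical) ≤ p ^ 2 ∨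
        FewIrregular p m) → ∀ i, ∃ v ∈ Above q K, ¬ Divides x i v) ∧
    -- (B) the pairs for which `q` is good
    (∀ i j k : Fin 3, i ≠ j → i ≠ k → j ≠ k → Good p q x i j k →
      padicNorm p (2 * Algebra.trace ℚ K (x j / x k) + m + deg q x i - deg q x j) < 1 ∧
      (FewIrregular p m → deg q x i = deg q x j) ∧
      (m = 2 → Good p q x i k j → ∀ a b d : ℤ, a = 2 + deg q x i - deg q x j →
        b = 2 + deg q x i - deg q x k →
        d = (a * (4 - b)) ^ 2 - 8 * a * (2 * (a + b) - a * b) →
        (∀ v ∈ Above p K, v.valuation K (2 * (a : K) * (x i / x j) ^ 2 +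
          (a : K) * (4 - b) * (x i / x j) + (2 * (a + b) - a * b)) < 1) ∧
        (¬ (p : ℤ) ∣ a → ¬ (p : ℤ) ∣ d → Decides d p K))) ∧
    -- (C) totally ramified `p`
    ((∀ i j k : Fin 3, i ≠ j → i ≠ k → j ≠ k → Good p q x i j k) →
      TotallyRamified p K → p ≤ 4 * m ^ 2) ∧
    -- (D) Wieferich's criterion
    (q = 2 →
      ((m ≤ 2 ∨ Nat.card (𝓞 K ⧸ (Ideal.span {((p : ℕ) : 𝓞 K)}).radical) ≤ p ^ 2 ∨
        FewIrregular p m) → ¬ TotallyRamified 2 K) ∧
      (m = 2 → 7 ≤ p → (Inert 2 K ∧ Decides (-3) p K) ∨ (Split 2 K ∧ Decides (-15) p K))) ∧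
    -- (E) examples of good prime numbers
    (5 ≤ p → (q = 2 ∧ ∀ v ∈ Above q K, Nat.card (𝓞 K ⧸ v.asIdeal) = 2 ∨
        Nat.card (𝓞 K ⧸ v.asIdeal) = 4) ∨
        (q = 3 ∧ ∀ v ∈ Above q K, Nat.card (𝓞 K ⧸ v.asIdeal) = 3) →
      ∀ i j k : Fin 3, Good p q x i j k) := by
  subst hK
  have hmpos := Module.finrank_pos (R := ℚ) (M := K)
  have h012 : ∀ i : Fin 3, ∃ j k : Fin 3, i ≠ j ∧ i ≠ k ∧ j ≠ k := H50.FW.exists_two
  obtain ⟨m1, m2, m3⟩ := H50.FW.mainG hp hp2 hm hq hqp hW hx.ne_zero hx.sum_eq hx.val_eq
  obtain ⟨n1, n2, n3, n4, n5, n6⟩ :=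
    H50.FW.mainF hp hp2 hm hq hqp hW hx.ne_zero hx.sum_eq hx.val_eq
  have hA : (Module.finrank ℚ K ≤ 2 ∨
      Nat.card (𝓞 K ⧸ (Ideal.span {((p : ℕ) : 𝓞 K)}).radical) ≤ p ^ 2 ∨
        FewIrregular p (Module.finrank ℚ K)) → ∀ i, ∃ v ∈ Above q K, ¬ Divides x i v := by
    intro hcond i
    by_contra hi
    push Not at hi
    rcases hcond with h | h | h
    · exact m1 (H50.FW.card_rad hp h) i hi
    · exact m1 h i hi
    · obtain ⟨j, k, hij, hik, hjk⟩ := h012 i
      have e1 := n2 h i j k hij hik hjk fun v hv => Or.inl (hi v hv)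
      have e2 := n5 i hi
      rw [e2.1, e2.2 j hij.symm] at e1
      omega
  refine ⟨hA, ?_, ?_, ?_, ?_⟩
  · intro i j k hij hik hjk hg
    refine ⟨n1 i j k hij hik hjk hg, fun hF => n2 hF i j k hij hik hjk hg, ?_⟩
    intro hm2 hg' a b d ha hb hd
    subst hd
    obtain ⟨k1, k2⟩ := m3 hm2 i j k hij hik hjk hg hg' a b ha hb
    exact ⟨k1, fun h1 h2 => decides_of hp hm2 (k2 h1 h2).1 (k2 h1 h2).2⟩
  · rintro hg ⟨hu, hc⟩
    by_contra h4
    push Not at h4
    exact H50.FW.uniqAll hp hp2 hq hqp hW hx.ne_zero hx.sum_eq hx.val_eq hu hc h4 hg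
  · rintro rfl
    refine ⟨?_, ?_⟩
    · rintro hcond ⟨hu, hc⟩
      obtain ⟨M, hM, hM2⟩ := Y546.WQ.exists_above (K := K) 2 Nat.prime_two
      have h0 : M ≠ ⊥ := by
        rintro rfl
        rw [Ideal.mem_bot, Nat.cast_eq_zero] at hM2
        exact two_ne_zero hM2
      have hv : (⟨M, hM, h0⟩ : HeightOneSpectrum (𝓞 K)) ∈ Above 2 K := hM2
      obtain ⟨i, hi⟩ := H50.FW.div_two hp hx.ne_zero hx.sum_eq hx.val_eq _ hv (hc _ hv)
      obtain ⟨w, hw, hwi⟩ := hA hcond i
      apply hwi
      rw [hu w hw _ hv]
      exact hi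
    · intro hm2 h7
      rcases H50.FW.quadTwo hp h7 hm2 hW hx.ne_zero hx.sum_eq hx.val_eq with
        ⟨h1, h2, h3, h4⟩ | ⟨h1, h3, h4⟩
      · refine Or.inl ⟨⟨h1, fun v hv => ?_⟩, decides_of hp hm2 (fun h => h3 ?_) fun h => h4 ?_⟩
        · rw [h2 v hv]
          norm_num
        · exact_mod_cast h
        · intro h5
          apply h
          exact_mod_cast h5
      · refine Or.inr ⟨h1, decides_of hp hm2 (fun h => h3 ?_) fun h => h4 ?_⟩
        · exact_mod_cast h
        · intro h5
          apply h
          exact_mod_cast h5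
  · rintro h5 (⟨rfl, h2⟩ | ⟨rfl, h3⟩)
    · exact H50.FW.good_two h5 h2 hx.ne_zero
    · exact H50.FW.good_three (by omega) h3 hx.ne_zero

end Pool.Agent.Results.MP_ef6a16_nt.Furtwaengler
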