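import Pool.Agent.W5h62.FS.Cor

/-!
# Solutions of Fermat's equation of small height are rare, over every number field

Let `K` be a number field, `r` its unit rank (the number of infinite places minus one). There is a
constant `C` such that for all `L ≥ 1` and `X ≥ 2` the equations `1 + x ^ p + y ^ p = 0`, for all primes `p`
with `C L ≤ p ≤ X` together, have at most `C L ^ (r - 1) (log X) ^ (2 r)` solutions in nonzero `x`, `y` in
`K` of logarithmic height at most `L`, apart from the solutions `{x, y} = {ω, ω ^ 2}`, `ω` a primitive
third root of unity. (The exponent `r - 1` is to be read as `0` if `r = 0`.) Hence for almost all primes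
`p` all other solutions have height greater than `exp (p / (log p) ^ 6)` if `r = 2`, and greater than
`exp (p ^ θ)` if `r ≥ 3` and `θ < 1 / (r - 1)`; for `r ≤ 1` the starting files have `2 ^ p / 2 ^ d`, for all
large `p`.

Proof. Let `(a : b : c)` be a solution with `2 ^ d H < 2 ^ p`. Then `a + b`, `b + c`, `c + a` generate the
ideal generated by `a`, `b`, `c`, at every finite place (this is in the starting files), so
`ρ = (a + b) / (c + a)` and `σ = (b + c) / (c + a)` are units, of height at most `2 ^ d H`. They determine
the point. If the same point is a solution for two primes `p`, `q`, then no finite place divides `c`,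
say: there `-b / a` would be a root of unity of order one modulo the place, as its order divides `p`
and `q`, but `a + b` is not divisible by the place. So the coordinates are units, and this happens only
for finitely many `p` by the finiteness of the number of solutions of the unit equation. So the pairs
`(ρ, σ)` have to be counted. At every infinite place the two largest of `|a + b|`, `|b + c|`, `|c + a|`
differ at most by the factor `16 p`: otherwise `a`, `b`, `-c` are so close to each other that
`a ^ p + b ^ p + c ^ p` is not zero. So up to `O(log X)` the logarithms at `w` are given by the place of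
the smallest one of the three and by one number `x_w ≥ 0`. By the product formula the sum of the
`x_w` is the same for the three possible places of the smallest one, up to `O(log X)`; this determines
two of the `x_w`, or shows that they are all `O(log X)`. Finally there are `O((log X) ^ (2 r))` pairs of
units in a box of size `O(log X)`.
-/

set_option autoImplicit false

namespace Pool.Agent.Results.MP_ef6a16_nt.SmallSolutionsAreRare

open NumberField

/-- `x`, `y` are nonzero elements of `K` with `1 + x ^ p + y ^ p = 0`, not the two primitive third roots
of unity, and the logarithmic height of `(1 : x : y)` is at most `L`. -/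
def Small (K : Type) [Field K] [NumberField K] (L : ℝ) (p : ℕ) (x y : K) : Prop :=
  x ≠ 0 ∧ y ≠ 0 ∧ 1 + x ^ p + y ^ p = 0 ∧ ¬ (1 + x + y = 0 ∧ x ^ 2 + x + 1 = 0) ∧
    Real.log (Height.mulHeight ![1, x, y]) ≤ L

theorem result (K : Type) [Field K] [NumberField K] : ∃ C : ℝ, 0 < C ∧
    -- (A) the number of small solutions, for all prime exponents `C L ≤ p ≤ X` together
    (∀ L X : ℝ, 1 ≤ L → 2 ≤ X → ∀ s : Finset (ℕ × K × K),
      (∀ t ∈ s, t.1.Prime ∧ C * L ≤ t.1 ∧ (t.1 : ℝ) ≤ X ∧ Small K L t.1 t.2.1 t.2.2) →
      (s.card : ℝ) ≤ C * L ^ (Units.rank K - 1) * Real.log X ^ (2 * Units.rank K)) ∧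
    -- (B) the number of primes `p ≤ X` with a solution of logarithmic height at most `L`
    (∀ L X : ℝ, 1 ≤ L → 2 ≤ X → ∀ s : Finset ℕ,
      (∀ p ∈ s, p.Prime ∧ (p : ℝ) ≤ X ∧ ∃ x y : K, Small K L p x y) →
      (s.card : ℝ) ≤ C * (L + L ^ (Units.rank K - 1) * Real.log X ^ (2 * Units.rank K))) := by
  obtain ⟨C, hC, -, h2⟩ := Pool.Agent.W5h62.FS.main K
  exact ⟨C, hC, fun L X hL hX s hs => h2 L hL X hX s hs,
    fun L X hL hX s hs => Pool.Agent.W5h62.FS.cor K hC h2 L X hL hX s hs⟩

end Pool.Agent.Results.MP_ef6a16_nt.SmallSolutionsAreRare
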