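import Pool.Agent.W71.FS.Last

/-!
# The first case of Fermat's Last Theorem over number fields and the splitting of `p`

Let `K` be any number field, `m` its degree, and let `p` be a prime such that `2 m + 3 ≤ p` and `p`
does not divide `B (p - 3), B (p - 5), ..., B (p - 2 m - 1)`, or such that `m (i + 1) (i + 2) + 3 ≤ p`,
where `i` is the index of irregularity of `p`. Let `x 0 ^ p + x 1 ^ p + x 2 ^ p = 0` be a solution in
the first case over `K`. The results of the starting files say that the polynomials `N (x i + T x j)`
are congruent to their reciprocals modulo `p`. Here this is turned into a statement on the primes of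
`K` above `p`: the residues of the six ratios `x i / x j` at the primes above `p`, counted with local
degrees, are distributed in the same way; in other words the residues of the point `(x 0 : x 1 : x 2)`
are invariant under the symmetric group `S3`. So there is no solution if the splitting type of `p` in
`K` has no such symmetry, for example if there is only one prime above `p` and `p = 1` modulo three
or the residue degree is odd.

Proof. Let `N` contain the conjugates of `K`, `Q` a prime of `N` above `p` with residue field `L`. The
number of embeddings `τ` of `K` in `N` for which `Q` lies above a given prime `v` of `K` is the local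
degree of `v` (compute the valuation at `Q` of the norm of an element of `K`). The multiset of the
residues of `τ (x 0 / x 1)` is stable under inversion as `N (x 0 + T x 1)` is reciprocal, and the same
holds for the permuted solutions, hence the distribution is invariant under `S3`. The group `S3`
acts on the classes of residues up to conjugation over the prime field. If the stabilizer of a class
contains an element of order two (three) which does not fix the residue itself, then the residue
degree is even (divisible by three), as Frobenius acts on the class with this order; the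
stabilizer cannot be `S3` unless the residue is a cube root of unity, as the Galois group is
cyclic. Labels of the orbits divide the primes in six, three or two parts of the same degree. A
residue fixed by an element of order two is `1`, `-2` or `-1/2`, which forces
`2 ^ (p - 1) = 1` modulo `p ^ 2`.
-/

set_option autoImplicit false

namespace Pool.Agent.Results.MP_ef6a16_nt.SplittingType

open NumberField IsDedekindDomain Polynomial

/-- The even numbers `k` with `2 ≤ k ≤ p - 3` for which `p` divides the numerator of the Bernoulli
number with index `k`. Their number is the index of irregularity of `p`. -/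
def Irregular (p : ℕ) : Finset ℕ :=
  (Finset.range p).filter fun k => Even k ∧ 2 ≤ k ∧ k + 3 ≤ p ∧
    (p : ℤ) ∣ (_root_.bernoulli k).num

section

variable {K : Type} [Field K] [NumberField K]

/-- The primes of `K` above the number `q`. -/
def Above (q : ℕ) (K : Type) [Field K] [NumberField K] : Set (HeightOneSpectrum (𝓞 K)) :=
  {v | ((q : ℕ) : 𝓞 K) ∈ v.asIdeal}

/-- The residue degree of a prime. -/
noncomputable def resDeg (v : HeightOneSpectrum (𝓞 K)) : ℕ := v.asIdeal.inertiaDeg ℤ

/-- The degree of a set of primes: the sum of the local degrees (ramification index times residue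
degree) of its elements. -/
noncomputable def degree (A : Set (HeightOneSpectrum (𝓞 K))) : ℕ :=
  ∑ᶠ v ∈ A, v.asIdeal.ramificationIdx ℤ * v.asIdeal.inertiaDeg ℤ

/-- A set of primes which is the disjoint union of `n` (possibly empty) sets of the same degree. -/
def Balanced (n : ℕ) (A : Set (HeightOneSpectrum (𝓞 K))) : Prop :=
  ∃ c : HeightOneSpectrum (𝓞 K) → Fin n, ∀ i j : Fin n,
    degree {v | v ∈ A ∧ c v = i} = degree {v | v ∈ A ∧ c v = j}

end

theorem result (K : Type) [Field K] [NumberField K] (m : ℕ) (hK : Module.finrank ℚ K = m)
    (p : ℕ) (hp : p.Prime)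
    (hB : (2 * m + 3 ≤ p ∧ ∀ k ∈ Irregular p, k + 2 * m + 1 < p) ∨
      m * (((Irregular p).card + 1) * ((Irregular p).card + 2)) + 3 ≤ p)
    (x : Fin 3 → K) (hx : ∀ i, x i ≠ 0) (h : x 0 ^ p + x 1 ^ p + x 2 ^ p = 0)
    (hv : ∀ v ∈ Above p K, ∀ i j, v.valuation K (x i) = v.valuation K (x j)) :
    -- (A) the residues of the six ratios have the same distribution
    (∀ (f : ℤ[X]) (i j i' j' : Fin 3), i ≠ j → i' ≠ j' →
      degree {v | v ∈ Above p K ∧ v.valuation K (aeval (x i / x j) f) < 1} =
        degree {v | v ∈ Above p K ∧ v.valuation K (aeval (x i' / x j') f) < 1}) ∧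
    -- (B) four types of primes
    (∃ T : HeightOneSpectrum (𝓞 K) → Fin 4,
      Balanced 6 {v | v ∈ Above p K ∧ T v = 0} ∧
      Balanced 3 {v | v ∈ Above p K ∧ T v = 1} ∧
      Balanced 2 {v | v ∈ Above p K ∧ T v = 2} ∧
      (p % 3 = 1 → Balanced 2 {v | v ∈ Above p K ∧ T v = 3}) ∧
      (∀ v ∈ Above p K, T v = 1 → p ^ 2 ∣ 2 ^ (p - 1) - 1 ∨ 2 ∣ resDeg v) ∧
      (∀ v ∈ Above p K, T v = 2 → 3 ∣ resDeg v) ∧
      (∀ v ∈ Above p K, T v = 3 → p % 3 = 2 → 2 ∣ resDeg v) ∧
      (∀ v ∈ Above p K, T v = 3 ↔
        v.valuation K ((x 0 / x 1) ^ 2 + x 0 / x 1 + 1) < 1)) ∧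
    -- (C) two disjoint nonempty sets of the same degree
    ((p % 3 = 1 ∨ ∃ v ∈ Above p K, ¬ 2 ∣ resDeg v) →
      ∃ A B : Set (HeightOneSpectrum (𝓞 K)), A ⊆ Above p K ∧ B ⊆ Above p K ∧
        A.Nonempty ∧ B.Nonempty ∧ Disjoint A B ∧ degree A = degree B) ∧
    -- (D) no cube roots of unity in the residue fields
    (p % 3 = 2 → (∀ v ∈ Above p K, ¬ 2 ∣ resDeg v) → 3 ∣ m) := by
  subst hK
  have hv' : ∀ v : HeightOneSpectrum (𝓞 K), ((p : ℕ) : 𝓞 K) ∈ v.asIdeal →
      v.valuation K (x 0) = v.valuation K (x 1) ∧ v.valuation K (x 1) = v.valuation K (x 2) :=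
    fun v h => ⟨hv v h 0 1, hv v h 1 2⟩
  have hm := Module.finrank_pos (R := ℚ) (M := K)
  have h5 : 5 ≤ p := by
    rcases hB with h | h
    · omega
    · have e : 2 ≤ ((Irregular p).card + 1) * ((Irregular p).card + 2) := by
        nlinarith [(Irregular p).card.zero_le]
      have := Nat.mul_le_mul_left (Module.finrank ℚ K) e
      omega
  have hp3 : p % 3 = 1 ∨ p % 3 = 2 := by
    have : ¬ 3 ∣ p := by
      intro hd
      have := (Nat.prime_dvd_prime_iff_eq Nat.prime_three hp).1 hd
      omega
    omega
  obtain ⟨h1, T, h2, h3, h4, h8, h6, h7, h9, h10⟩ := W71.FS.lastP hp hB hx h hv'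
  obtain ⟨k1, k2⟩ := W71.FS.conseq hp hp3 T h2 h3 h4 h8 h7 h9
  exact ⟨h1, ⟨T, h2, h3, h4, h8, h6, h7, h9, h10⟩, k1, k2⟩

end Pool.Agent.Results.MP_ef6a16_nt.SplittingType
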