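import Pool.Agent.W71.FS.Last

/-!
# The first case of Fermat's Last Theorem over number fields in which all primes above two have
# norm two or four

Let `K` be a number field of any degree `m` all of whose primes above two have norm two or four. Let
`p` be a prime such that `2 ^ (p - 1)` is not congruent to `1` modulo `p ^ 2`, and such that either
`2 m + 3 ≤ p` and `p` does not divide `B (p - 3), B (p - 5), ..., B (p - 2 m + 1)`, or the index of
irregularity `i` of `p` satisfies `m (i + 1) (i + 2) + 3 ≤ p`. Let `x ^ n + y ^ n = z ^ n` be a solution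
over `K` in the first case, where `p` divides `n`. Then the sets of primes above two which divide
`x`, `y` and `z` (after scaling at this prime) have the same degree, and a prime above two which
divides none of them has norm four. So there is no solution if the set of primes above two is not
the disjoint union of three sets of the same degree and a set of primes of norm four. For primes of
norm two this is stronger than `TwoAdicFirstCase` in the starting files (there: `m` is prime to
three or there is only one prime above two), from which the method is taken.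

Proof. As in the starting files, `P (T) = N (X + T Y)` at a `p`-th root of unity is a rational number
times the `p`-th power of an ideal. The reductions of `X, Y, Z` modulo a prime above two are zero or
cube roots of unity, with sum zero, since `p` is prime to three. As `P` modulo two has coefficients in
the field with two elements, the primitive cube roots of unity are roots of `P` modulo two with the
same multiplicity, and so `T ^ b P (T) = T ^ a T ^ m P (1 / T)` modulo two, where `a` and `b` are the
numbers of conjugates of `X` and `Y` in a prime above two; these are the degrees of the sets of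
primes dividing `X` and `Y`. The norm of `X + ζ Y` is prime to two as `p ≠ 3`. The Stickelberger
relations modulo two and modulo `p` give `a = b`.
-/

set_option autoImplicit false

namespace Pool.Agent.Results.MP_ef6a16_nt.TwoAdicDegrees

open NumberField IsDedekindDomain

/-- The even numbers `k` with `2 ≤ k ≤ p - 3` for which `p` divides the numerator of the Bernoulli
number with index `k`. Their number is the index of irregularity of `p`. -/
def Irregular (p : ℕ) : Finset ℕ :=
  (Finset.range p).filter fun k => Even k ∧ 2 ≤ k ∧ k + 3 ≤ p ∧ (p : ℤ) ∣ (bernoulli k).num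

section

variable {K : Type} [Field K] [NumberField K]

/-- The primes of `K` above the number `q`. -/
def Above (q : ℕ) (K : Type) [Field K] [NumberField K] : Set (HeightOneSpectrum (𝓞 K)) :=
  {v | ((q : ℕ) : 𝓞 K) ∈ v.asIdeal}

/-- The degree of a set of primes: the sum of the local degrees (ramification index times residue
degree) of its elements. -/
noncomputable def degree (A : Set (HeightOneSpectrum (𝓞 K))) : ℕ :=
  ∑ᶠ v ∈ A, v.asIdeal.ramificationIdx ℤ * v.asIdeal.inertiaDeg ℤ

/-- The primes above two at which the valuation of `x i` is larger than that of another coordinate: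
these primes divide `x i` if the coordinates are scaled to be integral and not all divisible. -/
def Divides (x : Fin 3 → K) (i : Fin 3) : Set (HeightOneSpectrum (𝓞 K)) :=
  {v | v ∈ Above 2 K ∧ ∃ k, v.valuation K (x i) < v.valuation K (x k)}

end

theorem result (K : Type) [Field K] [NumberField K] (m : ℕ) (hK : Module.finrank ℚ K = m)
    (h2 : ∀ v ∈ Above 2 K, Nat.card (𝓞 K ⧸ v.asIdeal) = 2 ∨ Nat.card (𝓞 K ⧸ v.asIdeal) = 4)
    (p n : ℕ) (hp : p.Prime) (hW : ¬ p ^ 2 ∣ 2 ^ (p - 1) - 1)
    (hB : (2 * m + 3 ≤ p ∧ ∀ k ∈ Irregular p, k + 2 * m < p) ∨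
      m * (((Irregular p).card + 1) * ((Irregular p).card + 2)) + 3 ≤ p)
    (hn : p ∣ n) (x y z : K) (h : x ^ n + y ^ n = z ^ n) (hx : x ≠ 0) (hy : y ≠ 0) (hz : z ≠ 0)
    (hv : ∀ v ∈ Above p K, v.valuation K x = v.valuation K y ∧
      v.valuation K y = v.valuation K z) :
    (∀ i j, degree (Divides ![x, y, z] i) = degree (Divides ![x, y, z] j)) ∧
    (∀ i j, i ≠ j → Disjoint (Divides ![x, y, z] i) (Divides ![x, y, z] j)) ∧
    (∀ v ∈ Above 2 K, (∀ i, v ∉ Divides ![x, y, z] i) → Nat.card (𝓞 K ⧸ v.asIdeal) = 4) ∧
    ∃ a : ℕ, m = 3 * a + degree {v | v ∈ Above 2 K ∧ ∀ i, v ∉ Divides ![x, y, z] i} := by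
  subst hK
  obtain ⟨k, rfl⟩ := hn
  have hk : k ≠ 0 := by
    rintro rfl
    norm_num at h
  have hm := Module.finrank_pos (R := ℚ) (M := K)
  have hp3 : 3 ≤ p := by
    rcases hB with h | h
    · omega
    · omega
  have hodd : Odd p := hp.odd_of_ne_two (by omega)
  have hF : (x ^ k) ^ p + (y ^ k) ^ p + (-z ^ k) ^ p = 0 := by
    rw [hodd.neg_pow, ← pow_mul, ← pow_mul, ← pow_mul, mul_comm k p, h]
    ring
  have hval : ∀ (v : HeightOneSpectrum (𝓞 K)) (i : Fin 3),
      v.valuation K ((![x ^ k, y ^ k, -z ^ k] : Fin 3 → K) i) =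
        v.valuation K ((![x, y, z] : Fin 3 → K) i) ^ k := by
    intro v i
    fin_cases i
    · exact map_pow _ _ _
    · exact map_pow _ _ _
    · show v.valuation K (-z ^ k) = v.valuation K z ^ k
      rw [Valuation.map_neg, map_pow]
  obtain ⟨h1, h3, h4⟩ := W71.FS.lastTwo (x := ![x ^ k, y ^ k, -z ^ k]) hp hB hW h2 (by
    intro i
    fin_cases i
    · exact pow_ne_zero k hx
    · exact pow_ne_zero k hy
    · exact neg_ne_zero.2 (pow_ne_zero k hz)) hF (by
    intro v hv'
    obtain ⟨e1, e2⟩ := hv v hv'
    rw [hval, hval, hval]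
    show v.valuation K x ^ k = v.valuation K y ^ k ∧ v.valuation K y ^ k = v.valuation K z ^ k
    rw [e1, e2]
    exact ⟨rfl, rfl⟩)
  have hD : ∀ i : Fin 3, Divides ![x, y, z] i =
      {v | v ∈ W71.FS.Ab 2 K ∧ ∃ j, v.valuation K ((![x ^ k, y ^ k, -z ^ k] : Fin 3 → K) i) <
        v.valuation K ((![x ^ k, y ^ k, -z ^ k] : Fin 3 → K) j)} := by
    intro i
    ext v
    refine and_congr_right fun _ => exists_congr fun j => ?_
    rw [hval, hval]
    exact (pow_lt_pow_iff_left₀ zero_le zero_le hk).symm
  have hdeg : ∀ i j, degree (Divides ![x, y, z] i) = degree (Divides ![x, y, z] j) := by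
    intro i j
    rw [hD, hD]
    exact h1 i j
  have hdis : ∀ i j, i ≠ j → Disjoint (Divides ![x, y, z] i) (Divides ![x, y, z] j) := by
    intro i j hij
    rw [Set.disjoint_left]
    intro v hv1 hv2
    rw [hD] at hv1 hv2
    exact h3 v hv1.1 i j hij ⟨hv1.2, hv2.2⟩
  refine ⟨hdeg, hdis, ?_, ?_⟩
  · intro v hv2 hno
    rcases h2 v hv2 with hc | hc
    · exfalso
      obtain ⟨i, j, hij⟩ := h4 v hv2 hc
      apply hno i
      rw [hD]
      exact ⟨hv2, j, hij⟩
    · exact hc
  · -- the sum of all local degrees is `m`
    have hfin := W71.FS.ab_finite (K := K) Nat.prime_two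
    have hsub : ∀ i, Divides ![x, y, z] i ⊆ W71.FS.Ab 2 K := fun i v hv1 => hv1.1
    have hfi : ∀ i, (Divides ![x, y, z] i).Finite := fun i => hfin.subset (hsub i)
    have hr : {v | v ∈ Above 2 K ∧ ∀ i, v ∉ Divides ![x, y, z] i}.Finite :=
      hfin.subset fun v hv1 => hv1.1
    refine ⟨degree (Divides ![x, y, z] 0), ?_⟩
    have hall := W71.FS.sum_all (K := K) Nat.prime_two
    have hU : W71.FS.Ab 2 K = ((Divides ![x, y, z] 0 ∪ Divides ![x, y, z] 1) ∪
        Divides ![x, y, z] 2) ∪ {v | v ∈ Above 2 K ∧ ∀ i, v ∉ Divides ![x, y, z] i} := by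
      ext v
      constructor
      · intro hv1
        by_cases hno : ∀ i, v ∉ Divides ![x, y, z] i
        · exact Or.inr ⟨hv1, hno⟩
        · push Not at hno
          obtain ⟨i, hi⟩ := hno
          left
          fin_cases i
          · exact Or.inl (Or.inl hi)
          · exact Or.inl (Or.inr hi)
          · exact Or.inr hi
      · rintro (((hv1 | hv1) | hv1) | hv1)
        · exact hv1.1
        · exact hv1.1
        · exact hv1.1
        · exact hv1.1
    have e01 := hdis 0 1 (by decide)
    have e02 := hdis 0 2 (by decide)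
    have e12 := hdis 1 2 (by decide)
    have eD : Disjoint ((Divides ![x, y, z] 0 ∪ Divides ![x, y, z] 1) ∪
        Divides ![x, y, z] 2) {v | v ∈ Above 2 K ∧ ∀ i, v ∉ Divides ![x, y, z] i} := by
      rw [Set.disjoint_left]
      rintro v ((hv1 | hv1) | hv1) ⟨-, hno⟩
      · exact hno 0 hv1
      · exact hno 1 hv1
      · exact hno 2 hv1
    rw [hU, finsum_mem_union eD (((hfi 0).union (hfi 1)).union (hfi 2)) hr,
      finsum_mem_union (Set.disjoint_union_left.2 ⟨e02, e12⟩) ((hfi 0).union (hfi 1)) (hfi 2),
      finsum_mem_union e01 (hfi 0) (hfi 1)] at hall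
    have d1 := hdeg 1 0
    have d2 := hdeg 2 0
    rw [← hall]
    unfold degree at d1 d2 ⊢
    unfold W71.FS.ldeg
    rw [d1, d2]
    ring

end Pool.Agent.Results.MP_ef6a16_nt.TwoAdicDegrees
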